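import Pool.Agent.W978.QO.Stm

set_option autoImplicit false

/-! QO-L1: primitive vectors on a plane, from below (reduced basis of the plane lattice). -/

namespace Pool.Agent.W980.QO.L1

open Finset Pool.Agent.W978.QN Pool.Agent.W978.QO

theorem prim_div (w : Fin 3 → ℤ) (hw : w ≠ 0) :
    ∃ (g : ℤ) (w' : Fin 3 → ℤ), 1 ≤ g ∧ (∀ i, w i = g * w' i) ∧ Prim w' := by
  have h1 : (1 : ℤ) ≤ ct w := by exact_mod_cast (ct_le_nm hw).1
  choose w' hw' using ct_dvd w
  refine ⟨ct w, w', h1, hw', ?_⟩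
  obtain ⟨A0, B0, e1⟩ : ∃ A0 B0 : ℤ, ((Int.gcd (w 0) (w 1) : ℕ) : ℤ) = w 0 * A0 + w 1 * B0 :=
    ⟨_, _, Int.gcd_eq_gcd_ab _ _⟩
  obtain ⟨A, B, e2⟩ : ∃ A B : ℤ, ((ct w : ℕ) : ℤ) =
      ((Int.gcd (w 0) (w 1) : ℕ) : ℤ) * A + w 2 * B :=
    ⟨_, _, Int.gcd_eq_gcd_ab ((Int.gcd (w 0) (w 1) : ℕ) : ℤ) (w 2)⟩
  refine ⟨![A0 * A, B0 * A, B], ?_⟩
  have h0 : ((ct w : ℕ) : ℤ) ≠ 0 := by omega
  apply mul_left_cancel₀ h0
  rw [Fin.sum_univ_three]
  simp only [Matrix.cons_val_zero, Matrix.cons_val_one, Matrix.cons_val]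
  have a0 := hw' 0
  have a1 := hw' 1
  have a2 := hw' 2
  rw [e1] at e2
  linear_combination (-(A0 * A)) * a0 - (B0 * A) * a1 - B * a2 - e2

theorem exists_basis (w : Fin 3 → ℤ) : ∃ u v : Fin 3 → ℤ, cp u v = w := by
  by_cases h : Int.gcd (w 0) (w 1) = 0
  · rw [Int.gcd_eq_zero_iff] at h
    refine ⟨![1, 0, 0], ![0, w 2, 0], ?_⟩
    funext i
    fin_cases i
    · simp [cp, h.1]
    · simp [cp, h.2]
    · simp [cp]
  · obtain ⟨A0, B0, e1⟩ : ∃ A0 B0 : ℤ, ((Int.gcd (w 0) (w 1) : ℕ) : ℤ) = w 0 * A0 + w 1 * B0 :=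
      ⟨_, _, Int.gcd_eq_gcd_ab _ _⟩
    obtain ⟨a, ha⟩ := Int.gcd_dvd_left (w 0) (w 1)
    obtain ⟨b, hb⟩ := Int.gcd_dvd_right (w 0) (w 1)
    obtain ⟨g, hg⟩ : ∃ g : ℤ, g = ((Int.gcd (w 0) (w 1) : ℕ) : ℤ) := ⟨_, rfl⟩
    rw [← hg] at e1 ha hb
    have hg0 : g ≠ 0 := by
      rw [hg]
      exact_mod_cast h
    have e3 : a * A0 + b * B0 = 1 := by
      apply mul_left_cancel₀ hg0
      linear_combination (-A0) * ha - B0 * hb - e1
    refine ⟨![-(w 2) * A0, -(w 2) * B0, g], ![b, -a, 0], ?_⟩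
    funext i
    fin_cases i
    · simp [cp]
      linear_combination -ha
    · simp [cp]
      linear_combination -hb
    · simp [cp]
      linear_combination (w 2) * e3

/-- a reduced basis -/
theorem reduced (w : Fin 3 → ℤ) : ∃ u v : Fin 3 → ℤ, cp u v = w ∧
    3 * ((u 0 ^ 2 + u 1 ^ 2 + u 2 ^ 2) * (v 0 ^ 2 + v 1 ^ 2 + v 2 ^ 2)) ≤
      4 * (w 0 ^ 2 + w 1 ^ 2 + w 2 ^ 2) := by
  classical
  have hex : ∃ n : ℕ, ∃ u v : Fin 3 → ℤ, cp u v = w ∧
      (u 0 ^ 2 + u 1 ^ 2 + u 2 ^ 2) + (v 0 ^ 2 + v 1 ^ 2 + v 2 ^ 2) = n := by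
    obtain ⟨u, v, h⟩ := exists_basis w
    refine ⟨((u 0 ^ 2 + u 1 ^ 2 + u 2 ^ 2) + (v 0 ^ 2 + v 1 ^ 2 + v 2 ^ 2)).toNat, u, v, h, ?_⟩
    rw [Int.toNat_of_nonneg (by positivity)]
  obtain ⟨u, v, h, hn⟩ := Nat.find_spec hex
  have hmin : ∀ u' v' : Fin 3 → ℤ, cp u' v' = w →
      (u 0 ^ 2 + u 1 ^ 2 + u 2 ^ 2) + (v 0 ^ 2 + v 1 ^ 2 + v 2 ^ 2) ≤
      (u' 0 ^ 2 + u' 1 ^ 2 + u' 2 ^ 2) + (v' 0 ^ 2 + v' 1 ^ 2 + v' 2 ^ 2) := by
    intro u' v' h'
    have := Nat.find_min' hex (m := ((u' 0 ^ 2 + u' 1 ^ 2 + u' 2 ^ 2) +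
      (v' 0 ^ 2 + v' 1 ^ 2 + v' 2 ^ 2)).toNat) ⟨u', v', h', by
        rw [Int.toNat_of_nonneg (by positivity)]⟩
    rw [hn]
    have h2 : (0 : ℤ) ≤ (u' 0 ^ 2 + u' 1 ^ 2 + u' 2 ^ 2) +
      (v' 0 ^ 2 + v' 1 ^ 2 + v' 2 ^ 2) := by positivity
    omega
  have c0 : u 1 * v 2 - u 2 * v 1 = w 0 := by rw [← h]; simp [cp]
  have c1 : u 2 * v 0 - u 0 * v 2 = w 1 := by rw [← h]; simp [cp]
  have c2 : u 0 * v 1 - u 1 * v 0 = w 2 := by rw [← h]; simp [cp]
  have mk : ∀ u' v' : Fin 3 → ℤ, u' 1 * v' 2 - u' 2 * v' 1 = w 0 →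
      u' 2 * v' 0 - u' 0 * v' 2 = w 1 → u' 0 * v' 1 - u' 1 * v' 0 = w 2 → cp u' v' = w := by
    intro u' v' h0 h1 h2
    funext i
    fin_cases i
    · simpa [cp] using h0
    · simpa [cp] using h1
    · simpa [cp] using h2
  have m1 := hmin u (fun i => v i + u i) (mk _ _ (by linear_combination c0)
    (by linear_combination c1) (by linear_combination c2))
  have m2 := hmin u (fun i => v i - u i) (mk _ _ (by linear_combination c0)
    (by linear_combination c1) (by linear_combination c2))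
  have m3 := hmin (fun i => u i + v i) v (mk _ _ (by linear_combination c0)
    (by linear_combination c1) (by linear_combination c2))
  have m4 := hmin (fun i => u i - v i) v (mk _ _ (by linear_combination c0)
    (by linear_combination c1) (by linear_combination c2))
  refine ⟨u, v, h, ?_⟩
  obtain ⟨a, ha⟩ : ∃ a, a = u 0 ^ 2 + u 1 ^ 2 + u 2 ^ 2 := ⟨_, rfl⟩
  obtain ⟨b, hb⟩ : ∃ b, b = v 0 ^ 2 + v 1 ^ 2 + v 2 ^ 2 := ⟨_, rfl⟩
  obtain ⟨c, hc⟩ : ∃ c, c = u 0 * v 0 + u 1 * v 1 + u 2 * v 2 := ⟨_, rfl⟩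
  have k1 : 0 ≤ a + 2 * c := by rw [ha, hc]; linarith
  have k2 : 0 ≤ a - 2 * c := by rw [ha, hc]; linarith
  have k3 : 0 ≤ b + 2 * c := by rw [hb, hc]; linarith
  have k4 : 0 ≤ b - 2 * c := by rw [hb, hc]; linarith
  have k5 : a * b = c ^ 2 + (w 0 ^ 2 + w 1 ^ 2 + w 2 ^ 2) := by
    rw [ha, hb, hc, ← c0, ← c1, ← c2]
    ring
  rw [← ha, ← hb]
  nlinarith [mul_nonneg k1 k4, mul_nonneg k2 k3, mul_nonneg k1 k3, mul_nonneg k2 k4]


theorem sum_inv_sq (N : ℕ) : ∑ l ∈ Icc 2 N, (1 : ℝ) / (l : ℝ) ^ 2 ≤ 3 / 4 := by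
  have key : ∀ N : ℕ, 2 ≤ N → ∑ l ∈ Icc 2 N, (1 : ℝ) / (l : ℝ) ^ 2 ≤ 3 / 4 - 1 / N := by
    intro N hN
    induction N, hN using Nat.le_induction with
    | base => simp; norm_num
    | succ n hn ih =>
      rw [Finset.sum_Icc_succ_top (by omega)]
      have hn0 : (0 : ℝ) < n := by exact_mod_cast (by omega : 0 < n)
      have h1 : (1 : ℝ) / ((n + 1 : ℕ) : ℝ) ^ 2 ≤ 1 / n - 1 / ((n + 1 : ℕ) : ℝ) := by
        push_cast
        rw [div_sub_div _ _ (by positivity) (by positivity), div_le_div_iff₀ (by positivity) (by positivity)]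
        nlinarith
      linarith
  rcases Nat.lt_or_ge N 2 with h | h
  · rw [Finset.Icc_eq_empty (by omega), Finset.sum_empty]
    norm_num
  · have := key N h
    have h2 : (0 : ℝ) ≤ 1 / N := by positivity
    linarith

/-- coprime pairs in a box -/
theorem coprime_count (M N : ℕ) :
    (M : ℝ) * N / 4 ≤ (((Ioc 0 M ×ˢ Ioc 0 N).filter (fun p => Nat.Coprime p.1 p.2)).card : ℝ) := by
  classical
  have h1 : ((Ioc 0 M ×ˢ Ioc 0 N).filter (fun p => ¬ Nat.Coprime p.1 p.2)) ⊆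
      (Icc 2 M).biUnion (fun l => ((Ioc 0 M).filter (fun x => l ∣ x)) ×ˢ
        ((Ioc 0 N).filter (fun x => l ∣ x))) := by
    intro p hp
    simp only [mem_filter, mem_product, mem_Ioc] at hp
    obtain ⟨⟨⟨h1, h2⟩, h3, h4⟩, h5⟩ := hp
    simp only [mem_biUnion, mem_filter, mem_product, mem_Ioc, mem_Icc]
    have hg : 0 < p.1.gcd p.2 := Nat.gcd_pos_of_pos_left _ h1
    refine ⟨p.1.gcd p.2, ⟨?_, (Nat.gcd_le_left _ h1).trans h2⟩, ⟨⟨h1, h2⟩, Nat.gcd_dvd_left _ _⟩,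
      ⟨⟨h3, h4⟩, Nat.gcd_dvd_right _ _⟩⟩
    have : p.1.gcd p.2 ≠ 1 := h5
    omega
  have h2 : (((Ioc 0 M ×ˢ Ioc 0 N).filter (fun p => ¬ Nat.Coprime p.1 p.2)).card : ℝ) ≤
      (M : ℝ) * N * (3 / 4) := by
    calc (((Ioc 0 M ×ˢ Ioc 0 N).filter (fun p => ¬ Nat.Coprime p.1 p.2)).card : ℝ)
        ≤ ((∑ l ∈ Icc 2 M, (M / l) * (N / l) : ℕ) : ℝ) := by
          have := (card_le_card h1).trans card_biUnion_le
          simp only [card_product, Nat.Ioc_filter_dvd_card_eq_div] at this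
          exact_mod_cast this
      _ ≤ ∑ l ∈ Icc 2 M, (M : ℝ) * N * (1 / (l : ℝ) ^ 2) := by
          push_cast
          apply Finset.sum_le_sum
          intro l hl
          rw [mem_Icc] at hl
          have hl0 : (0 : ℝ) < l := by exact_mod_cast (by omega : 0 < l)
          have a1 : ((M / l : ℕ) : ℝ) ≤ (M : ℝ) / l := Nat.cast_div_le
          have a2 : ((N / l : ℕ) : ℝ) ≤ (N : ℝ) / l := Nat.cast_div_le
          refine (mul_le_mul a1 a2 (by positivity) (by positivity)).trans (le_of_eq ?_)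
          field_simp
      _ = (M : ℝ) * N * ∑ l ∈ Icc 2 M, (1 : ℝ) / (l : ℝ) ^ 2 := by rw [Finset.mul_sum]
      _ ≤ (M : ℝ) * N * (3 / 4) :=
          mul_le_mul_of_nonneg_left (sum_inv_sq M) (by positivity)
  have h3 : (((Ioc 0 M ×ˢ Ioc 0 N).filter (fun p => Nat.Coprime p.1 p.2)).card : ℝ) +
      (((Ioc 0 M ×ˢ Ioc 0 N).filter (fun p => ¬ Nat.Coprime p.1 p.2)).card : ℝ) = M * N := by
    have := Finset.card_filter_add_card_filter_not (s := Ioc 0 M ×ˢ Ioc 0 N)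
      (fun p => Nat.Coprime p.1 p.2)
    rw [card_product, Nat.card_Ioc, Nat.card_Ioc] at this
    simp only [Nat.sub_zero] at this
    exact_mod_cast this
  linarith

theorem rep_or (v : Fin 3 → ℤ) (h : Prim v) : Rep v ∨ Rep (fun i => - v i) := by
  obtain ⟨t, ht⟩ := h
  have hn : Prim (fun i => - v i) := by
    refine ⟨fun i => - t i, ?_⟩
    rw [← ht]
    apply Finset.sum_congr rfl
    intro i _
    ring
  rcases lt_trichotomy (v 0) 0 with h0 | h0 | h0
  · right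
    exact ⟨hn, Or.inl (by simpa using h0)⟩
  · rcases lt_trichotomy (v 1) 0 with h1 | h1 | h1
    · right
      exact ⟨hn, Or.inr (Or.inl ⟨by simpa using h0, by simpa using h1⟩)⟩
    · have h2 : t 2 * v 2 = 1 := by
        rw [Fin.sum_univ_three, h0, h1] at ht
        linarith
      rcases Int.eq_one_or_neg_one_of_mul_eq_one' h2 with ⟨_, h3⟩ | ⟨_, h3⟩
      · left
        exact ⟨⟨t, ht⟩, Or.inr (Or.inr ⟨h0, h1, h3⟩)⟩
      · right
        exact ⟨hn, Or.inr (Or.inr ⟨by simpa using h0, by simpa using h1, by simp [h3]⟩)⟩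
    · left
      exact ⟨⟨t, ht⟩, Or.inr (Or.inl ⟨h0, h1⟩)⟩
  · left
    exact ⟨⟨t, ht⟩, Or.inl h0⟩


theorem abs_le_nm (v : Fin 3 → ℤ) (i : Fin 3) : |v i| ≤ nm v := by
  unfold nm
  fin_cases i
  · exact (le_max_left _ _).trans (le_max_left _ _)
  · exact (le_max_right _ _).trans (le_max_left _ _)
  · exact le_max_right _ _

theorem nm_sq (v : Fin 3 → ℤ) : nm v ^ 2 ≤ v 0 ^ 2 + v 1 ^ 2 + v 2 ^ 2 := by
  have h : nm v = |v 0| ∨ nm v = |v 1| ∨ nm v = |v 2| := by
    unfold nm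
    rcases max_choice (max |v 0| |v 1|) |v 2| with h | h
    · rcases max_choice |v 0| |v 1| with h' | h'
      · left; rw [h, h']
      · right; left; rw [h, h']
    · right; right; exact h
  rcases h with h | h | h <;> rw [h, sq_abs] <;> nlinarith [sq_nonneg (v 0), sq_nonneg (v 1), sq_nonneg (v 2)]

theorem sq_nm (v : Fin 3 → ℤ) : v 0 ^ 2 + v 1 ^ 2 + v 2 ^ 2 ≤ 3 * nm v ^ 2 := by
  have h : ∀ i, v i ^ 2 ≤ nm v ^ 2 := by
    intro i
    rw [← sq_abs (v i)]
    exact pow_le_pow_left₀ (abs_nonneg _) (abs_le_nm v i) 2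
  have := h 0
  have := h 1
  have := h 2
  linarith

theorem floor_half (R p : ℕ) (hp : 1 ≤ p) (h : 2 * p ≤ R) :
    (R : ℝ) / (4 * p) ≤ ((R / (2 * p) : ℕ) : ℝ) := by
  have h1 : 1 ≤ R / (2 * p) := (Nat.one_le_div_iff (by omega)).mpr h
  have h2 : R < (R / (2 * p) + 1) * (2 * p) := by
    have := Nat.lt_div_mul_add (a := R) (b := 2 * p) (by omega)
    rw [add_mul, one_mul]
    exact this
  have h3 : R ≤ (R / (2 * p)) * (4 * p) := by nlinarith
  have hp0 : (0 : ℝ) < 4 * p := by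
    have : (0 : ℝ) < p := by exact_mod_cast hp
    linarith
  rw [div_le_iff₀ hp0]
  exact_mod_cast h3

end Pool.Agent.W980.QO.L1

open Finset Pool.Agent.W978.QN Pool.Agent.W978.QO Pool.Agent.W980.QO.L1 in
theorem Pool.Agent.W980.QO.L1.main : S_L1 := by
  classical
  refine ⟨1 / 128, 4, by norm_num, ?_⟩
  intro w hw R hR
  obtain ⟨g, w', hg, hgw, hz⟩ := prim_div w hw
  obtain ⟨u, v, hcp, hred⟩ := reduced w'
  obtain ⟨z, hz1⟩ := hz
  have hw'0 : w' ≠ 0 := prim_ne_zero ⟨z, hz1⟩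
  have c0 : u 1 * v 2 - u 2 * v 1 = w' 0 := by rw [← hcp]; simp [cp]
  have c1 : u 2 * v 0 - u 0 * v 2 = w' 1 := by rw [← hcp]; simp [cp]
  have c2 : u 0 * v 1 - u 1 * v 0 = w' 2 := by rw [← hcp]; simp [cp]
  rw [Fin.sum_univ_three] at hz1
  have hu0 : u ≠ 0 := by
    rintro rfl
    apply hw'0
    rw [← hcp]
    funext i
    fin_cases i <;> simp [cp]
  have hv0 : v ≠ 0 := by
    rintro rfl
    apply hw'0
    rw [← hcp]
    funext i
    fin_cases i <;> simp [cp]
  obtain ⟨p, hp⟩ : ∃ p : ℕ, (p : ℤ) = nm u := ⟨(nm u).toNat, Int.toNat_of_nonneg (by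
    have := nm_pos_of_ne hu0
    omega)⟩
  obtain ⟨q, hq⟩ : ∃ q : ℕ, (q : ℤ) = nm v := ⟨(nm v).toNat, Int.toNat_of_nonneg (by
    have := nm_pos_of_ne hv0
    omega)⟩
  have hp1 : 1 ≤ p := by have := nm_pos_of_ne hu0; omega
  have hq1 : 1 ≤ q := by have := nm_pos_of_ne hv0; omega
  have hW' : 1 ≤ nm w' := nm_pos_of_ne hw'0
  have hW : 1 ≤ nm w := nm_pos_of_ne hw
  have hWW : nm w' ≤ nm w := by
    apply nm_le
    intro i
    refine le_trans ?_ (abs_le_nm w i)
    rw [hgw i, abs_mul]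
    have : 1 ≤ |g| := by rw [abs_of_pos (by omega)]; exact hg
    nlinarith [abs_nonneg (w' i)]
  have hpq : (p : ℤ) * q ≤ 2 * nm w' := by
    have e1 := nm_sq u
    have e2 := nm_sq v
    have e3 := sq_nm w'
    have e4 : (nm u * nm v) ^ 2 ≤ (2 * nm w') ^ 2 := by
      have e5 : nm u ^ 2 * nm v ^ 2 ≤
          (u 0 ^ 2 + u 1 ^ 2 + u 2 ^ 2) * (v 0 ^ 2 + v 1 ^ 2 + v 2 ^ 2) :=
        mul_le_mul e1 e2 (by positivity) (by positivity)
      rw [mul_pow]
      linarith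
    rw [hp, hq]
    exact le_of_sq_le_sq e4 (by omega)
  have hR4 : 4 * nm w' ≤ R := by
    refine le_trans ?_ hR
    push_cast
    have : nm w ≤ nm w ^ 3 := by
      calc nm w = nm w * 1 := by ring
        _ ≤ nm w * nm w ^ 2 := mul_le_mul_of_nonneg_left (one_le_pow₀ hW) (by omega)
        _ = nm w ^ 3 := by ring
    linarith
  have hpR : 2 * p ≤ R := by
    have : (p : ℤ) ≤ p * q := by
      have : (1 : ℤ) ≤ q := by exact_mod_cast hq1
      nlinarith
    omega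
  have hqR : 2 * q ≤ R := by
    have : (q : ℤ) ≤ p * q := by
      have : (1 : ℤ) ≤ p := by exact_mod_cast hp1
      nlinarith
    omega
  obtain ⟨M, hM⟩ : ∃ M, M = R / (2 * p) := ⟨_, rfl⟩
  obtain ⟨N, hN⟩ : ∃ N, N = R / (2 * q) := ⟨_, rfl⟩
  have hMR : (R : ℝ) / (4 * p) ≤ M := by rw [hM]; exact floor_half R p hp1 hpR
  have hNR : (R : ℝ) / (4 * q) ≤ N := by rw [hN]; exact floor_half R q hq1 hqR
  have hMR' : 2 * (M * p) ≤ R := by
    rw [hM]
    have := Nat.div_mul_le_self R (2 * p)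
    calc 2 * (R / (2 * p) * p) = R / (2 * p) * (2 * p) := by ring
      _ ≤ R := this
  have hNR' : 2 * (N * q) ≤ R := by
    rw [hN]
    have := Nat.div_mul_le_self R (2 * q)
    calc 2 * (R / (2 * q) * q) = R / (2 * q) * (2 * q) := by ring
      _ ≤ R := this
  -- the map
  let rr : ℕ × ℕ → Fin 3 → ℤ := fun t i => (t.1 : ℤ) * u i + (t.2 : ℤ) * v i
  let φ : ℕ × ℕ → Fin 3 → ℤ := fun t => if Rep (rr t) then rr t else fun i => - rr t i
  have hcard : ((Ioc 0 M ×ˢ Ioc 0 N).filter (fun t => Nat.Coprime t.1 t.2)).card ≤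
      ((bx R).filter fun r => Rep r ∧ ∑ k, w k * r k = 0).card := by
    apply Finset.card_le_card_of_injOn φ
    · intro t ht
      rw [mem_coe, mem_filter, mem_product, mem_Ioc, mem_Ioc] at ht
      obtain ⟨⟨⟨t1, t2⟩, t3, t4⟩, t5⟩ := ht
      have hprim : Prim (rr t) := by
        have h5 : IsCoprime (t.1 : ℤ) (t.2 : ℤ) := Nat.isCoprime_iff_coprime.mpr t5
        obtain ⟨α, β, hαβ⟩ := h5
        refine ⟨![α * (v 1 * z 2 - v 2 * z 1) + β * (z 1 * u 2 - z 2 * u 1),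
          α * (v 2 * z 0 - v 0 * z 2) + β * (z 2 * u 0 - z 0 * u 2),
          α * (v 0 * z 1 - v 1 * z 0) + β * (z 0 * u 1 - z 1 * u 0)], ?_⟩
        rw [Fin.sum_univ_three]
        simp only [Matrix.cons_val_zero, Matrix.cons_val_one, Matrix.cons_val, rr]
        rw [← c0, ← c1, ← c2] at hz1
        linear_combination (α * (t.1 : ℤ) + β * (t.2 : ℤ)) * hz1 + hαβ
      have hbox : ∀ i, |rr t i| ≤ R := by
        intro i
        have a1 : |rr t i| ≤ (t.1 : ℤ) * |u i| + (t.2 : ℤ) * |v i| := by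
          refine (abs_add_le _ _).trans ?_
          rw [abs_mul, abs_mul, Nat.abs_cast, Nat.abs_cast]
        have a2 : (t.1 : ℤ) * |u i| ≤ M * p := by
          rw [hp]
          exact mul_le_mul (by exact_mod_cast t2) (abs_le_nm u i) (abs_nonneg _) (by positivity)
        have a3 : (t.2 : ℤ) * |v i| ≤ N * q := by
          rw [hq]
          exact mul_le_mul (by exact_mod_cast t4) (abs_le_nm v i) (abs_nonneg _) (by positivity)
        have a4 : 2 * ((M : ℤ) * p) ≤ R := by exact_mod_cast hMR'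
        have a5 : 2 * ((N : ℤ) * q) ≤ R := by exact_mod_cast hNR'
        linarith
      have hort : ∑ k, w k * rr t k = 0 := by
        rw [Fin.sum_univ_three, hgw 0, hgw 1, hgw 2, ← c0, ← c1, ← c2]
        simp only [rr]
        ring
      rw [mem_coe, mem_filter, mem_bx]
      by_cases hr : Rep (rr t)
      · have : φ t = rr t := if_pos hr
        rw [this]
        exact ⟨nm_le hbox, hr, hort⟩
      · have : φ t = fun i => - rr t i := if_neg hr
        rw [this]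
        refine ⟨nm_le (fun i => by rw [abs_neg]; exact hbox i), ?_, ?_⟩
        · rcases rep_or _ hprim with h | h
          · exact absurd h hr
          · exact h
        · rw [Fin.sum_univ_three] at hort ⊢
          linarith
    · intro s hs t ht hst
      rw [mem_coe, mem_filter, mem_product, mem_Ioc, mem_Ioc] at hs ht
      obtain ⟨⟨⟨s1, s2⟩, s3, s4⟩, s5⟩ := hs
      obtain ⟨⟨⟨t1, t2⟩, t3, t4⟩, t5⟩ := ht
      have key : ∀ x y : ℤ, (∀ i, x * u i + y * v i = 0) → x = 0 ∧ y = 0 := by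
        intro x y h
        have h0 := h 0
        have h1 := h 1
        have h2 := h 2
        rw [← c0, ← c1, ← c2] at hz1
        constructor
        · linear_combination (-x) * hz1 + (v 1 * z 2 - v 2 * z 1) * h0 +
            (v 2 * z 0 - v 0 * z 2) * h1 + (v 0 * z 1 - v 1 * z 0) * h2
        · linear_combination (-y) * hz1 + (z 1 * u 2 - z 2 * u 1) * h0 +
            (z 2 * u 0 - z 0 * u 2) * h1 + (z 0 * u 1 - z 1 * u 0) * h2
      have hcase : (∀ i, rr s i = rr t i) ∨ (∀ i, rr s i = - rr t i) := by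
        by_cases h1 : Rep (rr s) <;> by_cases h2 : Rep (rr t)
        · left
          intro i
          have e1 : φ s = rr s := if_pos h1
          have e2 : φ t = rr t := if_pos h2
          rw [e1, e2] at hst
          exact congrFun hst i
        · right
          intro i
          have e1 : φ s = rr s := if_pos h1
          have e2 : φ t = fun i => - rr t i := if_neg h2
          rw [e1, e2] at hst
          exact congrFun hst i
        · right
          intro i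
          have e1 : φ s = fun i => - rr s i := if_neg h1
          have e2 : φ t = rr t := if_pos h2
          rw [e1, e2] at hst
          have := congrFun hst i
          linarith
        · left
          intro i
          have e1 : φ s = fun i => - rr s i := if_neg h1
          have e2 : φ t = fun i => - rr t i := if_neg h2
          rw [e1, e2] at hst
          have := congrFun hst i
          linarith
      rcases hcase with h | h
      · have hk := key ((s.1 : ℤ) - t.1) ((s.2 : ℤ) - t.2) (by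
          intro i
          have := h i
          simp only [rr] at this
          linear_combination this)
        refine Prod.ext ?_ ?_
        · have := hk.1; omega
        · have := hk.2; omega
      · have hk := key ((s.1 : ℤ) + t.1) ((s.2 : ℤ) + t.2) (by
          intro i
          have := h i
          simp only [rr] at this
          linear_combination this)
        exfalso
        have := hk.1
        omega
  have hcop := coprime_count M N
  have hp0 : (0 : ℝ) < p := by exact_mod_cast hp1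
  have hq0 : (0 : ℝ) < q := by exact_mod_cast hq1
  have hW0 : (0 : ℝ) < (nm w : ℝ) := by exact_mod_cast hW
  have hfin : 1 / 128 * (R : ℝ) ^ 2 / nm w ≤ (M : ℝ) * N / 4 := by
    have f1 : (R : ℝ) / (4 * p) * ((R : ℝ) / (4 * q)) ≤ (M : ℝ) * N :=
      mul_le_mul hMR hNR (by positivity) (by positivity)
    have f2 : (p : ℝ) * q ≤ 2 * nm w := by
      have : (p : ℤ) * q ≤ 2 * nm w := by linarith
      exact_mod_cast this
    have f3 : (R : ℝ) ^ 2 / (32 * nm w) ≤ (R : ℝ) / (4 * p) * ((R : ℝ) / (4 * q)) := by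
      rw [div_mul_div_comm, ← sq]
      apply div_le_div_of_nonneg_left (by positivity) (by positivity)
      nlinarith
    have f4 : 1 / 128 * (R : ℝ) ^ 2 / nm w = (R : ℝ) ^ 2 / (32 * nm w) / 4 := by
      field_simp
      ring
    rw [f4]
    linarith
  refine (hfin.trans hcop).trans ?_
  convert (Nat.cast_le (α := ℝ)).mpr hcard
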